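import Pool.Agent.Lib.MP_c28bf6_an.Convert
import Pool.Agent.Lib.MP_c28bf6_an.N7.All

/-!
MP_c28bf6_an, Q1 for `n ≤ 6`: a choreography of at most six bodies, in a Euclidean space of any
dimension, has equal masses; and for `n = 7` if the bodies are not coplanar at some time.
-/

namespace Pool.Agent.Results.MP_c28bf6_an.AtMostSix

open Pool.Agent.Lib.MP_c28bf6_an

/-- A collision-free choreography of `n ≤ 6` bodies with positive masses has equal masses, in
every real inner product space (in particular in the plane and in space); the same is true for
`n = 7` if at some time `t` the positions of the bodies span an affine space of dimension at least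
`3`. -/
theorem result {E : Type*} [NormedAddCommGroup E] [InnerProductSpace ℝ E] {n : ℕ}
    {m : Fin n → ℝ} {x : ℝ → E} {T : ℝ} (h : IsChoreography n m x T)
    (hn : n ≤ 6 ∨ (n = 7 ∧ ∃ t : ℝ,
      3 ≤ Module.finrank ℝ (vectorSpan ℝ (Set.range (fun i => body n x T i t)))))
    (i j : Fin n) : m i = m j := by
  rcases hn with hn | ⟨rfl, t, ht⟩
  · exact h.eq_of_le_six hn i j
  · exact N7.all E m x T h t ht i j

end Pool.Agent.Results.MP_c28bf6_an.AtMostSix
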