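import Pool.Agent.Lib.MP_c28bf6_an.Convert2
import Pool.Agent.Lib.MP_c28bf6_an.CE.Main

/-!
MP_c28bf6_an, Q1 for a general number `n` of bodies: every nonzero vector in the span of the cyclic
mass differences has at least five nonzero entries; for commensurable masses the masses are equal
when `n` is a prime or `9`, and have period `g` when `n = g p` with `g ∈ {2, 3}`, `p` prime; a close
encounter of two bodies forces equal masses.
-/

namespace Pool.Agent.Results.MP_c28bf6_an.GeneralN

open Pool.Agent.Lib.MP_c28bf6_an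

/-- A collision-free choreography of `n` bodies with positive masses `m`, in a real inner product
space: (A) a nonzero linear combination of the vectors `(m_{j+s} - m_j)_j` has at least five nonzero
entries. If the masses are commensurable: (B1) they are equal when `n` is prime or `n = 9`;
(B2) `m_{j+g} = m_j` when `n = g p`, `g ∈ {2,3}`, `p ≠ g` prime; (B3) for `n = g p^(k+1)`,
`1 ≤ g ≤ 3`, the masses of the classes `j + p^(k+1) ℤ` and `j + p^k + p^(k+1) ℤ` have the same sum;
(B4) for `n = p^(u+1) q^(v+1)` the mixed difference of `m` with steps `n/p` and `n/q` vanishes.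
(C) All masses are equal if at one time `t`, for two bodies `a ≠ b`, a real `c` and a vector `e`, the
number `|(r⁻³ - c) ⟪x_j - x_a, e⟫|`, `r = |x_j - x_a|`, is larger for `j = b` than the sum of the same
numbers for all `j` different from `a` and `b`. -/
theorem result {E : Type*} [NormedAddCommGroup E] [InnerProductSpace ℝ E] {n : ℕ}
    {m : Fin n → ℝ} {x : ℝ → E} {T : ℝ} (h : IsChoreography n m x T) :
    (∀ w ∈ massSpan m, w ≠ 0 → 5 ≤ (Finset.univ.filter (fun j => w j ≠ 0)).card) ∧
    (Commensurable m →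
      ((n.Prime ∨ n = 9) → ∀ i j, m i = m j) ∧
      (∀ g p : ℕ, g = 2 ∨ g = 3 → p.Prime → p ≠ g → n = g * p → ∀ j, m (cyc g j) = m j) ∧
      (∀ p k g : ℕ, p.Prime → 1 ≤ g → g ≤ 3 → n = g * p ^ (k + 1) → ∀ j,
        ∑ i ∈ Finset.range g, m (cyc (p ^ k) (cyc (i * p ^ (k + 1)) j)) =
          ∑ i ∈ Finset.range g, m (cyc (i * p ^ (k + 1)) j)) ∧
      (∀ p q u v : ℕ, p.Prime → q.Prime → p ≠ q → n = p ^ (u + 1) * q ^ (v + 1) → ∀ j,
        m (cyc (p ^ (u + 1) * q ^ v) (cyc (p ^ u * q ^ (v + 1)) j)) + m j =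
          m (cyc (p ^ u * q ^ (v + 1)) j) + m (cyc (p ^ (u + 1) * q ^ v) j))) ∧
    (∀ (t : ℝ) (a b : Fin n) (c : ℝ) (e : E), a ≠ b →
      ∑ j ∈ (Finset.univ.erase a).erase b, |((‖body n x T j t - body n x T a t‖ ^ 3)⁻¹ - c) *
          inner ℝ (body n x T j t - body n x T a t) e| <
        |((‖body n x T b t - body n x T a t‖ ^ 3)⁻¹ - c) *
          inner ℝ (body n x T b t - body n x T a t) e| →
      ∀ i j, m i = m j) := by
  refine ⟨fun w hw hw0 => h.five_le hw hw0, fun hm => ⟨?_, ?_, ?_, ?_⟩,
    fun t a b c e hab hdom i j => CE.final h t a b hab c e hdom i j⟩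
  · rintro (hn | hn) i j
    · exact h.eq_of_prime hm hn i j
    · subst hn
      exact h.eq_of_nine hm i j
  · intro g p hg hp hpg hn j
    exact h.period_of_mul hm hg hp hpg hn j
  · intro p k g hp hg1 hg3 hn j
    exact h.class_sum hm hp hg1 hg3 hn j
  · intro p q u v hp hq hpq hn j
    exact h.mixed_difference hm hp hq hpq hn j

end Pool.Agent.Results.MP_c28bf6_an.GeneralN
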