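import Pool.Agent.Lib.MP_c28bf6_an.LC.Dim

/-!
MP_c28bf6_an, Q1 for choreographies (any number of bodies) that pass through a configuration in
which all bodies but a few lie on a line or on a circle.
-/

namespace Pool.Agent.Results.MP_c28bf6_an.LineCircle

open Pool.Agent.Lib.MP_c28bf6_an Module

/-- Let `n` bodies with positive masses move in a collision-free choreography in a real inner
product space (of any dimension), let `t` be a time and `F` a set of bodies. (A) All masses are equal
if the bodies outside `F` lie on a line and `F` has at most three elements (at most one if `n` is
even), or if they lie on a circle and `F` has at most one element (none if `n` is even). (B) If they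
lie on a circle, the dimension of the space of cyclic mass differences is at most the number of
elements of `F`; if they lie on a line, it is at most this number, plus one if `n` minus this number
is odd. -/
theorem result {E : Type} [NormedAddCommGroup E] [InnerProductSpace ℝ E] {n : ℕ}
    {m : Fin n → ℝ} {x : ℝ → E} {T : ℝ} (h : IsChoreography n m x T) (t : ℝ)
    (F : Finset (Fin n)) :
    ((Collinear ℝ ((fun i => body n x T i t) '' {i | i ∉ F}) ∧
          F.card ≤ (if Even n then 1 else 3)) ∨
        (EuclideanGeometry.Concyclic ((fun i => body n x T i t) '' {i | i ∉ F}) ∧
          F.card ≤ (if Even n then 0 else 1)) →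
      ∀ i j : Fin n, m i = m j) ∧
    (EuclideanGeometry.Concyclic ((fun i => body n x T i t) '' {i | i ∉ F}) →
      finrank ℝ (massSpan m) ≤ F.card) ∧
    (Collinear ℝ ((fun i => body n x T i t) '' {i | i ∉ F}) →
      finrank ℝ (massSpan m) ≤ F.card + (if Even (n - F.card) then 0 else 1)) :=
  ⟨LC.t_FIN2 E n m x T h t F, LC.dim_le h t F⟩

end Pool.Agent.Results.MP_c28bf6_an.LineCircle
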