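import Pool.Agent.Lib.MP_c28bf6_an.Mir.All

/-!
MP_c28bf6_an, Q1 for choreographies (any number of bodies) that pass through a mirror symmetric
configuration.
-/

namespace Pool.Agent.Results.MP_c28bf6_an.MirrorSymmetry

open Pool.Agent.Lib.MP_c28bf6_an Pool.Agent.Lib.MP_c28bf6_an.Mir

/-- Let `n` bodies with positive masses move in a collision-free choreography in a Euclidean space
of dimension at most three. Suppose that at one time `t` the configuration is symmetric with
respect to the hyperplane of the points `y` with `⟪e, y⟫ = a`: the mirror image of each body is (the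
position of) a body. If, for one `i`, body `i + s` is the mirror image of body `i` at this time
(indices modulo `n`), then the masses have period `s`: `m_(k+s) = m_k` for all `k`. -/
theorem result {E : Type} [NormedAddCommGroup E] [InnerProductSpace ℝ E] [FiniteDimensional ℝ E]
    (hE : Module.finrank ℝ E ≤ 3) {n : ℕ} {m : Fin n → ℝ} {x : ℝ → E} {T : ℝ}
    (h : IsChoreography n m x T) (t : ℝ) (e : E) (he : ‖e‖ = 1) (a : ℝ)
    (hsym : ∀ i, ∃ j, body n x T j t = mirror e a (body n x T i t))
    (i : Fin n) (s : ℕ) (hs : body n x T (cyc s i) t = mirror e a (body n x T i t)) (k : Fin n) :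
    m (cyc s k) = m k := by
  classical
  choose σ hσ using hsym
  refine t_INS E hE n m x T h t σ e a he (fun i => (hσ i).symm) i s ?_ k
  by_contra hne
  exact h.no_collision t _ _ hne (hs.trans (hσ i).symm)

end Pool.Agent.Results.MP_c28bf6_an.MirrorSymmetry
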